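import Mathlib

/-!
# Rectangles tiled by L-tetrominoes of one orientation

The cell `[i,i+1] × [j,j+1]` is represented by the pair `(i,j)`.
-/

set_option linter.unreachableTactic false
set_option linter.unusedTactic false
set_option linter.unnecessarySeqFocus false

namespace Pool.Agent.Results.MP_7a8221_co.Classification

/-- Unit cells of the square grid: `(i,j)` stands for `[i,i+1] × [j,j+1]`. -/
abbrev Cell := ℤ × ℤ

/-- The cells of the `m × n` rectangle. -/
noncomputable def rect (m n : ℕ) : Finset Cell := Finset.Ico (0 : ℤ) m ×ˢ Finset.Ico (0 : ℤ) n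

/-- A quarter turn, acting on cells (up to translation). -/
def rot (p : Cell) : Cell := (-p.2, p.1)

/-- A reflection, acting on cells (up to translation). -/
def mir (p : Cell) : Cell := (-p.1, p.2)

/-- The L-tetromino: a row of three cells with one extra cell above one end cell. -/
def baseL : Finset Cell := {(0, 0), (1, 0), (2, 0), (2, 1)}

/-- `SameOrientation s t`: the set `t` is the image of `s` under a rotation composed with a
translation. -/
def SameOrientation (s t : Finset Cell) : Prop :=
  ∃ (k : ℕ) (v : Cell), t = s.image (fun p => rot^[k] p + v)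

/-- `t` is a copy of the L-tetromino under a grid-preserving isometry. -/
def IsLTetromino (t : Finset Cell) : Prop :=
  SameOrientation baseL t ∨ SameOrientation (baseL.image mir) t

/-- `T` is a tiling of the region `R` by L-tetrominoes. -/
def IsTiling (T : Finset (Finset Cell)) (R : Finset Cell) : Prop :=
  (∀ t ∈ T, IsLTetromino t) ∧ (T : Set (Finset Cell)).PairwiseDisjoint id ∧ T.biUnion id = R

/-- The `m × n` rectangle has a tiling by L-tetrominoes all of the same orientation. -/
def OneOrientationTileable (m n : ℕ) : Prop :=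
  ∃ T : Finset (Finset Cell), IsTiling T (rect m n) ∧ ∀ s ∈ T, ∀ t ∈ T, SameOrientation s t

/-! ### General tilings by copies satisfying a predicate -/

def Tiles (C : Finset Cell → Prop) (R : Finset Cell) : Prop :=
  ∃ T : Finset (Finset Cell), (∀ t ∈ T, C t) ∧ (T : Set (Finset Cell)).PairwiseDisjoint id ∧
    T.biUnion id = R

theorem mem_rect {m n : ℕ} {c : Cell} :
    c ∈ rect m n ↔ 0 ≤ c.1 ∧ c.1 < m ∧ 0 ≤ c.2 ∧ c.2 < n := by
  simp [rect, and_assoc]

theorem Tiles.map {C C' : Finset Cell → Prop} {R : Finset Cell} (f : Cell → Cell)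
    (hf : Function.Injective f) (hC : ∀ t, C t → C' (t.image f)) (h : Tiles C R) :
    Tiles C' (R.image f) := by
  obtain ⟨T, h1, h2, h3⟩ := h
  refine ⟨T.image (fun t => t.image f), ?_, ?_, ?_⟩
  · intro t ht
    obtain ⟨s, hs, rfl⟩ := Finset.mem_image.1 ht
    exact hC s (h1 s hs)
  · intro t ht s hs hts
    obtain ⟨t', ht', rfl⟩ := Finset.mem_image.1 (Finset.mem_coe.1 ht)
    obtain ⟨s', hs', rfl⟩ := Finset.mem_image.1 (Finset.mem_coe.1 hs)
    have hne : t' ≠ s' := fun h => hts (by rw [h])
    have := h2 ht' hs' hne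
    simp only [Function.onFun, id] at this ⊢
    exact (Finset.disjoint_image hf).2 this
  · subst h3
    ext c
    simp only [Finset.mem_biUnion, Finset.mem_image, id]
    constructor
    · rintro ⟨_, ⟨s, hs, rfl⟩, hc⟩
      obtain ⟨a, ha, rfl⟩ := Finset.mem_image.1 hc
      exact ⟨a, ⟨s, hs, ha⟩, rfl⟩
    · rintro ⟨a, ⟨s, hs, ha⟩, rfl⟩
      exact ⟨_, ⟨s, hs, rfl⟩, Finset.mem_image_of_mem f ha⟩

theorem Tiles.union {C : Finset Cell → Prop} {R S : Finset Cell} (hd : Disjoint R S)
    (hR : Tiles C R) (hS : Tiles C S) : Tiles C (R ∪ S) := by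
  obtain ⟨T, h1, h2, h3⟩ := hR
  obtain ⟨U, k1, k2, k3⟩ := hS
  refine ⟨T ∪ U, ?_, ?_, ?_⟩
  · intro t ht
    rcases Finset.mem_union.1 ht with h | h
    · exact h1 t h
    · exact k1 t h
  · have hTR : ∀ t ∈ T, t ⊆ R := fun t ht c hc => by
      rw [← h3]; exact Finset.mem_biUnion.2 ⟨t, ht, hc⟩
    have hUS : ∀ t ∈ U, t ⊆ S := fun t ht c hc => by
      rw [← k3]; exact Finset.mem_biUnion.2 ⟨t, ht, hc⟩
    intro t ht s hs hts
    rcases Finset.mem_union.1 (Finset.mem_coe.1 ht) with h | h <;>
      rcases Finset.mem_union.1 (Finset.mem_coe.1 hs) with h' | h'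
    · exact h2 h h' hts
    · exact Finset.disjoint_of_subset_left (hTR t h)
        (Finset.disjoint_of_subset_right (hUS s h') hd)
    · exact (Finset.disjoint_of_subset_left (hTR s h')
        (Finset.disjoint_of_subset_right (hUS t h) hd)).symm
    · exact k2 h h' hts
  · rw [Finset.union_biUnion, h3, k3]

/-- Copies in a fixed orientation class. -/
theorem SameOrientation.trans {r s t : Finset Cell} (h : SameOrientation r s)
    (h' : SameOrientation s t) : SameOrientation r t := by
  obtain ⟨k, v, rfl⟩ := h
  obtain ⟨l, w, rfl⟩ := h'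
  have hadd : ∀ (l : ℕ) (p q : Cell), rot^[l] (p + q) = rot^[l] p + rot^[l] q := by
    intro l
    induction l with
    | zero => intro p q; rfl
    | succ l ih =>
      intro p q
      have h1 : rot (p + q) = rot p + rot q := by
        ext <;> simp [rot]; ring
      rw [Function.iterate_succ_apply, h1, ih, Function.iterate_succ_apply,
        Function.iterate_succ_apply]
  refine ⟨l + k, rot^[l] v + w, ?_⟩
  rw [Finset.image_image]
  congr 1
  funext p
  simp only [Function.comp]
  rw [hadd, Function.iterate_add_apply, add_assoc]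

theorem rot4 (p : Cell) : rot^[4] p = p := by
  simp [rot, Function.iterate_succ_apply]

theorem SameOrientation.symm {s t : Finset Cell} (h : SameOrientation s t) :
    SameOrientation t s := by
  obtain ⟨k, v, rfl⟩ := h
  have hadd : ∀ (l : ℕ) (p q : Cell), rot^[l] (p + q) = rot^[l] p + rot^[l] q := by
    intro l
    induction l with
    | zero => intro p q; rfl
    | succ l ih =>
      intro p q
      have h1 : rot (p + q) = rot p + rot q := by
        ext <;> simp [rot]; ring
      rw [Function.iterate_succ_apply, h1, ih, Function.iterate_succ_apply,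
        Function.iterate_succ_apply]
  have h4 : ∀ (k : ℕ) (p : Cell), rot^[3 * k + k] p = p := by
    intro k
    induction k with
    | zero => intro p; rfl
    | succ k ih =>
      intro p
      have : 3 * (k + 1) + (k + 1) = (3 * k + k) + 4 := by ring
      rw [this, Function.iterate_add_apply, rot4, ih]
  refine ⟨3 * k, - rot^[3 * k] v, ?_⟩
  rw [Finset.image_image]
  have : ((fun p => rot^[3 * k] p + - rot^[3 * k] v) ∘ fun p => rot^[k] p + v) = id := by
    funext p
    simp only [Function.comp, id]
    rw [hadd, ← Function.iterate_add_apply, h4]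
    abel
  rw [this, Finset.image_id]

/-! ### Explicit forms -/

def t0 (x y : ℤ) : Finset Cell := {(x, y), (x + 1, y), (x + 2, y), (x + 2, y + 1)}
def t1 (x y : ℤ) : Finset Cell := {(x, y), (x, y + 1), (x, y + 2), (x - 1, y + 2)}
def t2 (x y : ℤ) : Finset Cell := {(x, y), (x - 1, y), (x - 2, y), (x - 2, y - 1)}
def t3 (x y : ℤ) : Finset Cell := {(x, y), (x, y - 1), (x, y - 2), (x + 1, y - 2)}

theorem copy_cases {t : Finset Cell} (h : SameOrientation baseL t) :
    ∃ x y, t = t0 x y ∨ t = t1 x y ∨ t = t2 x y ∨ t = t3 x y := by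
  obtain ⟨k, v, rfl⟩ := h
  have hk : ∀ p, rot^[k] p = rot^[k % 4] p := by
    intro p
    have h4 : ∀ (j : ℕ) (p : Cell), rot^[4 * j] p = p := by
      intro j
      induction j with
      | zero => intro p; rfl
      | succ j ih =>
        intro p
        have : 4 * (j + 1) = 4 * j + 4 := by ring
        rw [this, Function.iterate_add_apply, rot4, ih]
    conv_lhs => rw [← Nat.div_add_mod k 4]
    rw [Function.iterate_add_apply, h4]
  have hlt : k % 4 < 4 := Nat.mod_lt _ (by norm_num)
  have hfun : (fun p => rot^[k] p + v) = (fun p => rot^[k % 4] p + v) := by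
    funext p; rw [hk]
  rw [hfun]
  obtain ⟨a, b⟩ := v
  refine ⟨a, b, ?_⟩
  generalize k % 4 = j at hlt
  interval_cases j
  · left
    simp [baseL, t0, Finset.image_insert, add_comm]
  · right; left
    simp [baseL, t1, Finset.image_insert, rot, add_comm, sub_eq_add_neg]
  · right; right; left
    simp [baseL, t2, Finset.image_insert, rot, Function.iterate_succ_apply, add_comm,
      sub_eq_add_neg]
  · right; right; right
    simp [baseL, t3, Finset.image_insert, rot, Function.iterate_succ_apply, add_comm,
      sub_eq_add_neg]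

theorem copy_t0 (x y : ℤ) : SameOrientation baseL (t0 x y) :=
  ⟨0, (x, y), by simp [baseL, t0, Finset.image_insert, add_comm]⟩
theorem copy_t1 (x y : ℤ) : SameOrientation baseL (t1 x y) :=
  ⟨1, (x, y), by simp [baseL, t1, Finset.image_insert, rot, add_comm, sub_eq_add_neg]⟩
theorem copy_t2 (x y : ℤ) : SameOrientation baseL (t2 x y) :=
  ⟨2, (x, y), by simp [baseL, t2, Finset.image_insert, rot, Function.iterate_succ_apply, add_comm,
      sub_eq_add_neg]⟩
theorem copy_t3 (x y : ℤ) : SameOrientation baseL (t3 x y) :=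
  ⟨3, (x, y), by simp [baseL, t3, Finset.image_insert, rot, Function.iterate_succ_apply, add_comm,
      sub_eq_add_neg]⟩


/-! ### Colouring: the number of cells is divisible by 8 -/

/-- weight by parity of the first coordinate -/
def wt (c : Cell) : ℤ := if c.1 % 2 = 0 then 1 else -1

theorem wt_succ (x y : ℤ) : wt (x + 1, y) = - wt (x, y) := by
  unfold wt
  simp only
  split_ifs <;> first | rfl | omega

theorem wt_snd (x y z : ℤ) : wt (x, y) = wt (x, z) := rfl

theorem wt_pm (x y : ℤ) : wt (x, y) = 1 ∨ wt (x, y) = -1 := by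
  unfold wt
  split_ifs <;> simp

theorem sum_copy {t : Finset Cell} (h : SameOrientation baseL t) :
    t.card = 4 ∧ (∑ c ∈ t, wt c = 2 ∨ ∑ c ∈ t, wt c = -2) := by
  obtain ⟨x, y, h | h | h | h⟩ := copy_cases h
  · subst h
    have e1 : (x, y) ∉ ({(x + 1, y), (x + 2, y), (x + 2, y + 1)} : Finset Cell) := by
      simp <;> omega
    have e2 : (x + 1, y) ∉ ({(x + 2, y), (x + 2, y + 1)} : Finset Cell) := by
      simp <;> omega
    have e3 : (x + 2, y) ∉ ({(x + 2, y + 1)} : Finset Cell) := by
      simp <;> omega
    constructor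
    · rw [t0, Finset.card_insert_of_notMem e1, Finset.card_insert_of_notMem e2,
        Finset.card_insert_of_notMem e3, Finset.card_singleton]
    · rw [t0, Finset.sum_insert e1, Finset.sum_insert e2, Finset.sum_insert e3,
        Finset.sum_singleton]
      have h1 := wt_succ x y
      have h2 := wt_succ (x + 1) y
      have h3 := wt_snd (x + 2) (y + 1) y
      rw [show x + 1 + 1 = x + 2 by ring] at h2
      rcases wt_pm x y with h | h <;> rw [h3, h2, h1, h] <;> norm_num
  · subst h
    have e1 : (x, y) ∉ ({(x, y + 1), (x, y + 2), (x - 1, y + 2)} : Finset Cell) := by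
      simp <;> omega
    have e2 : (x, y + 1) ∉ ({(x, y + 2), (x - 1, y + 2)} : Finset Cell) := by
      simp <;> omega
    have e3 : (x, y + 2) ∉ ({(x - 1, y + 2)} : Finset Cell) := by
      simp <;> omega
    constructor
    · rw [t1, Finset.card_insert_of_notMem e1, Finset.card_insert_of_notMem e2,
        Finset.card_insert_of_notMem e3, Finset.card_singleton]
    · rw [t1, Finset.sum_insert e1, Finset.sum_insert e2, Finset.sum_insert e3,
        Finset.sum_singleton]
      have h1 := wt_succ (x - 1) y
      have h2 := wt_snd x (y + 1) y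
      have h3 := wt_snd x (y + 2) y
      have h4 := wt_snd (x - 1) (y + 2) y
      rw [show x - 1 + 1 = x by ring] at h1
      rcases wt_pm (x - 1) y with h | h <;> rw [h2, h3, h4, h1, h] <;> norm_num
  · subst h
    have e1 : (x, y) ∉ ({(x - 1, y), (x - 2, y), (x - 2, y - 1)} : Finset Cell) := by
      simp <;> omega
    have e2 : (x - 1, y) ∉ ({(x - 2, y), (x - 2, y - 1)} : Finset Cell) := by
      simp <;> omega
    have e3 : (x - 2, y) ∉ ({(x - 2, y - 1)} : Finset Cell) := by
      simp <;> omega
    constructor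
    · rw [t2, Finset.card_insert_of_notMem e1, Finset.card_insert_of_notMem e2,
        Finset.card_insert_of_notMem e3, Finset.card_singleton]
    · rw [t2, Finset.sum_insert e1, Finset.sum_insert e2, Finset.sum_insert e3,
        Finset.sum_singleton]
      have h1 := wt_succ (x - 2) y
      have h2 := wt_succ (x - 1) y
      have h3 := wt_snd (x - 2) (y - 1) y
      rw [show x - 2 + 1 = x - 1 by ring] at h1
      rw [show x - 1 + 1 = x by ring] at h2
      rcases wt_pm (x - 2) y with h | h <;> rw [h3, h2, h1, h] <;> norm_num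
  · subst h
    have e1 : (x, y) ∉ ({(x, y - 1), (x, y - 2), (x + 1, y - 2)} : Finset Cell) := by
      simp <;> omega
    have e2 : (x, y - 1) ∉ ({(x, y - 2), (x + 1, y - 2)} : Finset Cell) := by
      simp <;> omega
    have e3 : (x, y - 2) ∉ ({(x + 1, y - 2)} : Finset Cell) := by
      simp <;> omega
    constructor
    · rw [t3, Finset.card_insert_of_notMem e1, Finset.card_insert_of_notMem e2,
        Finset.card_insert_of_notMem e3, Finset.card_singleton]
    · rw [t3, Finset.sum_insert e1, Finset.sum_insert e2, Finset.sum_insert e3,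
        Finset.sum_singleton]
      have h1 := wt_succ x y
      have h2 := wt_snd x (y - 1) y
      have h3 := wt_snd x (y - 2) y
      have h4 := wt_snd (x + 1) (y - 2) y
      rcases wt_pm x y with h | h <;> rw [h2, h3, h4, h1, h] <;> norm_num

theorem card_rect (m n : ℕ) : (rect m n).card = m * n := by
  simp [rect]

theorem sum_wt_rect {m n : ℕ} (hm : 2 ∣ m) : ∑ c ∈ rect m n, wt c = 0 := by
  obtain ⟨k, rfl⟩ := hm
  induction k with
  | zero => simp [rect]
  | succ k ih =>
    have hsplit : rect (2 * (k + 1)) n = rect (2 * k) n ∪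
        (({(2 * k : ℤ)} : Finset ℤ) ×ˢ Finset.Ico (0 : ℤ) n ∪
          ({(2 * k + 1 : ℤ)} : Finset ℤ) ×ˢ Finset.Ico (0 : ℤ) n) := by
      ext ⟨a, b⟩
      simp only [rect, Finset.mem_product, Finset.mem_Ico, Finset.mem_union,
        Finset.mem_singleton]
      push_cast
      constructor
      · rintro ⟨⟨h1, h2⟩, h3⟩
        by_cases h : a < 2 * k
        · exact Or.inl ⟨⟨h1, h⟩, h3⟩
        · right
          by_cases h' : a = 2 * k
          · exact Or.inl ⟨h', h3⟩
          · exact Or.inr ⟨by omega, h3⟩
      · rintro (⟨⟨h1, h2⟩, h3⟩ | ⟨h1, h3⟩ | ⟨h1, h3⟩)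
        · exact ⟨⟨h1, by omega⟩, h3⟩
        · exact ⟨⟨by omega, by omega⟩, h3⟩
        · exact ⟨⟨by omega, by omega⟩, h3⟩
    rw [hsplit, Finset.sum_union, Finset.sum_union, ih, zero_add, Finset.sum_product,
      Finset.sum_product, Finset.sum_singleton, Finset.sum_singleton]
    · rw [← Finset.sum_add_distrib]
      apply Finset.sum_eq_zero
      intro y _
      rw [wt_succ]
      ring
    · rw [Finset.disjoint_left]
      rintro ⟨a, b⟩ h1 h2
      simp only [Finset.mem_product, Finset.mem_singleton] at h1 h2
      omega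
    · rw [Finset.disjoint_left]
      rintro ⟨a, b⟩ h1 h2
      simp only [rect, Finset.mem_product, Finset.mem_singleton, Finset.mem_union,
        Finset.mem_Ico] at h1 h2
      push_cast at h1
      omega

theorem eight_dvd_of_even {m n : ℕ} (hm : 2 ∣ m) (h : Tiles (SameOrientation baseL) (rect m n)) :
    8 ∣ m * n := by
  obtain ⟨T, h1, h2, h3⟩ := h
  have hcard : m * n = 4 * T.card := by
    rw [← card_rect, ← h3, Finset.card_biUnion (fun x hx y hy hxy => h2 hx hy hxy)]
    rw [Finset.sum_congr rfl (fun t ht => show (id t : Finset Cell).card = 4 from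
      (sum_copy (h1 t ht)).1)]
    simp [mul_comm]
  have hsum : ∑ t ∈ T, ∑ c ∈ t, wt c = 0 := by
    have := sum_wt_rect (n := n) hm
    rw [← h3, Finset.sum_biUnion (fun x hx y hy hxy => h2 hx hy hxy)] at this
    exact this
  have hmod : ∀ S ⊆ T, (4 : ℤ) ∣ ∑ t ∈ S, ∑ c ∈ t, wt c - 2 * S.card := by
    intro S
    induction S using Finset.induction_on with
    | empty => intro _; simp
    | insert a S ha ih =>
      intro hS
      have h4 := ih (fun x hx => hS (Finset.mem_insert_of_mem hx))
      rw [Finset.sum_insert ha, Finset.card_insert_of_notMem ha]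
      rcases (sum_copy (h1 a (hS (Finset.mem_insert_self a S)))).2 with h5 | h5 <;> rw [h5] <;>
        push_cast <;> omega
  have := hmod T (Finset.Subset.refl _)
  rw [hsum] at this
  omega


/-! ### Symmetries -/

def swp (p : Cell) : Cell := (p.2, p.1)

theorem swp_inj : Function.Injective swp := by
  rintro ⟨a, b⟩ ⟨c, d⟩ h
  simp only [swp, Prod.mk.injEq] at h
  simp [h.1, h.2]

theorem mir_inj : Function.Injective mir := by
  rintro ⟨a, b⟩ ⟨c, d⟩ h
  simp only [mir, Prod.mk.injEq, neg_inj] at h
  simp [h.1, h.2]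

theorem rot_add (l : ℕ) (p q : Cell) : rot^[l] (p + q) = rot^[l] p + rot^[l] q := by
  induction l generalizing p q with
  | zero => rfl
  | succ l ih =>
    have h1 : rot (p + q) = rot p + rot q := by
      ext <;> simp [rot]; ring
    rw [Function.iterate_succ_apply, h1, ih, Function.iterate_succ_apply,
      Function.iterate_succ_apply]

theorem rot4k (j : ℕ) (p : Cell) : rot^[4 * j] p = p := by
  induction j with
  | zero => rfl
  | succ j ih =>
    have : 4 * (j + 1) = 4 * j + 4 := by ring
    rw [this, Function.iterate_add_apply, rot4, ih]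

/-- Conjugation of a quarter turn by a reflection `f` with `f ∘ rot = rot^[3] ∘ f`. -/
theorem conj_iter (f : Cell → Cell) (hf : ∀ p, f (rot p) = rot^[3] (f p)) (k : ℕ) (p : Cell) :
    f (rot^[k] p) = rot^[3 * k] (f p) := by
  induction k generalizing p with
  | zero => rfl
  | succ k ih =>
    rw [Function.iterate_succ_apply, ih, hf, ← Function.iterate_add_apply]
    congr 1

theorem same_map (f : Cell → Cell) (hf : ∀ p, f (rot p) = rot^[3] (f p))
    (hadd : ∀ p q, f (p + q) = f p + f q) {B t : Finset Cell} (h : SameOrientation B t) :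
    SameOrientation (B.image f) (t.image f) := by
  obtain ⟨k, v, rfl⟩ := h
  refine ⟨3 * k, f v, ?_⟩
  rw [Finset.image_image, Finset.image_image]
  congr 1
  funext p
  simp only [Function.comp]
  rw [hadd, conj_iter f hf]

theorem mir_rot (p : Cell) : mir (rot p) = rot^[3] (mir p) := by
  simp [rot, mir, Function.iterate_succ_apply]

theorem swp_rot (p : Cell) : swp (rot p) = rot^[3] (swp p) := by
  simp [rot, swp, Function.iterate_succ_apply]

theorem mir_mir (B : Finset Cell) : (B.image mir).image mir = B := by
  rw [Finset.image_image]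
  have : mir ∘ mir = id := by funext p; simp [mir]
  rw [this, Finset.image_id]

theorem same_trans (B : Finset Cell) (v : Cell) : SameOrientation B (B.image (fun p => p + v)) :=
  ⟨0, v, rfl⟩

theorem same_rot (B : Finset Cell) (v : Cell) (k : ℕ) :
    SameOrientation B (B.image (fun p => rot^[k] p + v)) := ⟨k, v, rfl⟩


theorem tiles_mirror {m n : ℕ} (h : Tiles (SameOrientation (baseL.image mir)) (rect m n)) :
    Tiles (SameOrientation baseL) (rect m n) := by
  have h1 := h.map (C' := SameOrientation baseL) (fun p => mir p + ((m : ℤ) - 1, 0))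
    (by
      intro p q hpq
      exact mir_inj (by simpa using hpq))
    (by
      intro t ht
      have h2 := same_map mir mir_rot (fun p q => by ext <;> simp [mir]; ring) ht
      rw [mir_mir] at h2
      have h3 := same_trans (t.image mir) ((m : ℤ) - 1, 0)
      rw [Finset.image_image] at h3
      exact h2.trans h3)
  have h2 : (rect m n).image (fun p => mir p + ((m : ℤ) - 1, 0)) = rect m n := by
    ext ⟨a, b⟩
    simp only [Finset.mem_image, mem_rect, mir, Prod.exists, Prod.mk_add_mk, Prod.mk.injEq]
    constructor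
    · rintro ⟨c, d, h, h', h''⟩
      omega
    · intro h
      exact ⟨m - 1 - a, b, by omega, by omega, by omega⟩
  rwa [h2] at h1

theorem rot_inj : Function.Injective rot := by
  rintro ⟨a, b⟩ ⟨c, d⟩ h
  simp only [rot, Prod.mk.injEq, neg_inj] at h
  simp [h.1, h.2]

theorem tiles_rot {m n : ℕ} (h : Tiles (SameOrientation baseL) (rect m n)) :
    Tiles (SameOrientation baseL) (rect n m) := by
  have h1 := h.map (C' := SameOrientation baseL) (fun p => rot p + ((n : ℤ) - 1, 0))
    (by
      intro p q hpq
      exact rot_inj (by simpa using hpq))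
    (by
      intro t ht
      exact ht.trans (same_rot t ((n : ℤ) - 1, 0) 1))
  have h2 : (rect m n).image (fun p => rot p + ((n : ℤ) - 1, 0)) = rect n m := by
    ext ⟨a, b⟩
    simp only [Finset.mem_image, mem_rect, rot, Prod.exists, Prod.mk_add_mk, Prod.mk.injEq]
    constructor
    · rintro ⟨c, d, h, h', h''⟩
      omega
    · intro h
      exact ⟨b, n - 1 - a, by omega, by omega, by omega⟩
  rwa [h2] at h1

theorem eight_dvd {m n : ℕ} (h : Tiles (SameOrientation baseL) (rect m n)) : 8 ∣ m * n := by
  by_cases hm : 2 ∣ m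
  · exact eight_dvd_of_even hm h
  · by_cases hn : 2 ∣ n
    · rw [mul_comm]
      exact eight_dvd_of_even hn (tiles_rot h)
    · exfalso
      obtain ⟨T, h1, h2, h3⟩ := h
      have hcard : m * n = 4 * T.card := by
        rw [← card_rect, ← h3, Finset.card_biUnion (fun x hx y hy hxy => h2 hx hy hxy)]
        rw [Finset.sum_congr rfl (fun t ht => show (id t : Finset Cell).card = 4 from
          (sum_copy (h1 t ht)).1)]
        simp [mul_comm]
      have h4 : 2 ∣ m * n := ⟨2 * T.card, by omega⟩
      rcases (Nat.prime_two.dvd_mul).1 h4 with h | h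
      · exact hm h
      · exact hn h

/-! ### Strips of width 3 -/

/-- the tiling property for the strip with three rows and `n` columns -/
def Strip (n : ℕ) : Prop := Tiles (SameOrientation baseL) (rect n 3)

theorem strip_half_turn {n : ℕ} {T : Finset (Finset Cell)}
    (h1 : ∀ t ∈ T, SameOrientation baseL t) (h2 : (T : Set (Finset Cell)).PairwiseDisjoint id)
    (h3 : T.biUnion id = rect n 3) :
    ∃ U : Finset (Finset Cell), (∀ t ∈ U, SameOrientation baseL t) ∧
      (U : Set (Finset Cell)).PairwiseDisjoint id ∧ U.biUnion id = rect n 3 ∧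
      ∀ x y, t1 x y ∈ T → t3 (n - 1 - x) (2 - y) ∈ U := by
  let f : Cell → Cell := fun p => rot^[2] p + ((n : ℤ) - 1, 2)
  have hfe : ∀ a b, f (a, b) = (n - 1 - a, 2 - b) := by
    intro a b
    simp only [f, rot, Function.iterate_succ_apply, Function.iterate_zero, id, Prod.mk_add_mk,
      Prod.mk.injEq]
    constructor <;> ring
  have hf : Function.Injective f := by
    rintro ⟨a, b⟩ ⟨c, d⟩ h
    rw [hfe, hfe, Prod.mk.injEq] at h
    ext <;> simp <;> omega
  refine ⟨T.image (fun t => t.image f), ?_, ?_, ?_, ?_⟩
  · intro t ht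
    obtain ⟨s, hs, rfl⟩ := Finset.mem_image.1 ht
    exact (h1 s hs).trans (same_rot s ((n : ℤ) - 1, 2) 2)
  · intro t ht s hs hts
    obtain ⟨t', ht', rfl⟩ := Finset.mem_image.1 (Finset.mem_coe.1 ht)
    obtain ⟨s', hs', rfl⟩ := Finset.mem_image.1 (Finset.mem_coe.1 hs)
    have hne : t' ≠ s' := fun h => hts (by rw [h])
    have := h2 ht' hs' hne
    simp only [Function.onFun, id] at this ⊢
    exact (Finset.disjoint_image hf).2 this
  · ext ⟨a, b⟩
    have hmem : ∀ c, c ∈ T.biUnion id ↔ c ∈ rect n 3 := fun c => by rw [h3]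
    simp only [Finset.mem_biUnion, Finset.mem_image, id]
    constructor
    · rintro ⟨_, ⟨s, hs, rfl⟩, hc⟩
      obtain ⟨⟨c, d⟩, ha, hcd⟩ := Finset.mem_image.1 hc
      have := (hmem (c, d)).1 (Finset.mem_biUnion.2 ⟨s, hs, ha⟩)
      rw [mem_rect] at this ⊢
      rw [hfe, Prod.mk.injEq] at hcd
      simp only at this ⊢
      push_cast at this ⊢
      omega
    · intro h
      have h' : ((n : ℤ) - 1 - a, 2 - b) ∈ rect n 3 := by
        rw [mem_rect] at h ⊢
        simp only at h ⊢
        push_cast at h ⊢
        omega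
      rw [← hmem] at h'
      obtain ⟨s, hs, hs'⟩ := Finset.mem_biUnion.1 h'
      refine ⟨_, ⟨s, hs, rfl⟩, ?_⟩
      refine Finset.mem_image.2 ⟨_, hs', ?_⟩
      rw [hfe]
      ext <;> simp
  · intro x y hT
    refine Finset.mem_image.2 ⟨_, hT, ?_⟩
    ext ⟨a, b⟩
    simp only [t1, t3, Finset.mem_image, Finset.mem_insert, Finset.mem_singleton,
      Prod.mk.injEq, Prod.exists, hfe]
    constructor
    · rintro ⟨c, d, h, h'⟩
      omega
    · intro h
      exact ⟨n - 1 - a, 2 - b, by omega, by omega⟩

/-- A vertical tile whose extra cell is at the bottom right cuts off a tiled strip. -/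
theorem strip_left {n : ℕ} {T : Finset (Finset Cell)}
    (h1 : ∀ t ∈ T, SameOrientation baseL t) (h2 : (T : Set (Finset Cell)).PairwiseDisjoint id)
    (h3 : T.biUnion id = rect n 3) (x : ℕ) (hx : t3 x 2 ∈ T) : Strip x := by
  have hsub : ∀ t ∈ T, ∀ c ∈ t, c ∈ rect n 3 := fun t ht c hc => by
    rw [← h3]; exact Finset.mem_biUnion.2 ⟨t, ht, hc⟩
  have huniq : ∀ s ∈ T, ∀ t ∈ T, ∀ c, c ∈ s → c ∈ t → s = t := by
    intro s hs t ht c hcs hct
    by_contra hne
    exact Finset.disjoint_left.1 (h2 hs ht hne) hcs hct
  have hxn : (x : ℤ) < n := by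
    have := hsub _ hx ((x : ℤ), 2) (by simp [t3])
    rw [mem_rect] at this
    exact this.2.1
  refine ⟨T.filter (fun t => ∀ c ∈ t, c.1 < x), ?_, ?_, ?_⟩
  · intro t ht
    exact h1 t (Finset.mem_filter.1 ht).1
  · intro s hs t ht hst
    exact h2 (Finset.mem_filter.1 (Finset.mem_coe.1 hs)).1
      (Finset.mem_filter.1 (Finset.mem_coe.1 ht)).1 hst
  · ext ⟨a, b⟩
    simp only [Finset.mem_biUnion, Finset.mem_filter, id]
    constructor
    · rintro ⟨t, ⟨ht, htx⟩, hc⟩
      have h4 := hsub t ht _ hc
      have h5 := htx _ hc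
      rw [mem_rect] at h4 ⊢
      simp only at h4 h5 ⊢
      omega
    · intro h
      rw [mem_rect] at h
      simp only at h
      have h' : ((a, b) : Cell) ∈ T.biUnion id := by
        rw [h3, mem_rect]
        simp only
        omega
      obtain ⟨t, ht, hc⟩ := Finset.mem_biUnion.1 h'
      refine ⟨t, ⟨ht, ?_⟩, hc⟩
      have hne : t ≠ t3 x 2 := by
        rintro rfl
        simp only [id, t3, Finset.mem_insert, Finset.mem_singleton, Prod.mk.injEq] at hc
        omega
      have hcol : ∀ c ∈ t, c.1 ≠ x := by
        rintro ⟨c, d⟩ hcd hcx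
        simp only at hcx
        subst hcx
        have h5 := hsub t ht _ hcd
        rw [mem_rect] at h5
        simp only at h5
        push_cast at h5
        apply hne
        apply huniq t ht _ hx _ hcd
        simp only [t3, Finset.mem_insert, Finset.mem_singleton, Prod.mk.injEq, true_and]
        omega
      rintro ⟨c, d⟩ hcd
      simp only
      by_contra hlt
      have hc' : ((a, b) : Cell) ∈ t := hc
      have hcx := hcol _ hcd
      simp only at hcx
      obtain ⟨u, v, h | h | h | h⟩ := copy_cases (h1 t ht)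
      · have hm := hcol (u + 1, v) (by rw [h]; simp [t0])
        rw [h] at hcd hc'
        simp only [t0, Finset.mem_insert, Finset.mem_singleton, Prod.mk.injEq] at hcd hc' hm
        omega
      · rw [h] at hcd hc'
        simp only [t1, Finset.mem_insert, Finset.mem_singleton, Prod.mk.injEq] at hcd hc'
        omega
      · have hm := hcol (u - 1, v) (by rw [h]; simp [t2])
        rw [h] at hcd hc'
        simp only [t2, Finset.mem_insert, Finset.mem_singleton, Prod.mk.injEq] at hcd hc' hm
        omega
      · rw [h] at hcd hc'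
        simp only [t3, Finset.mem_insert, Finset.mem_singleton, Prod.mk.injEq] at hcd hc'
        omega


theorem strip_impossible (n : ℕ) (hn : 1 ≤ n) : ¬ Strip n := by
  induction n using Nat.strong_induction_on with
  | _ n ih =>
    intro hS
    have h8 : 8 ∣ n := by
      have h := eight_dvd hS
      omega
    obtain ⟨T, h1, h2, h3⟩ := hS
    have hsub : ∀ t ∈ T, ∀ c ∈ t, c ∈ rect n 3 := fun t ht c hc => by
      rw [← h3]; exact Finset.mem_biUnion.2 ⟨t, ht, hc⟩
    have huniq : ∀ s ∈ T, ∀ t ∈ T, ∀ c, c ∈ s → c ∈ t → s = t := by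
      intro s hs t ht c hcs hct
      by_contra hne
      exact Finset.disjoint_left.1 (h2 hs ht hne) hcs hct
    have v3 : ∀ x y, t3 x y ∈ T → x = 0 ∧ y = 2 := by
      intro x y hT
      have e1 := hsub _ hT (x, y) (by simp [t3])
      have e2 := hsub _ hT (x + 1, y - 2) (by simp [t3])
      rw [mem_rect] at e1 e2
      simp only at e1 e2
      push_cast at e1 e2
      have hy : y = 2 := by omega
      subst hy
      obtain ⟨k, rfl⟩ : ∃ k : ℕ, x = k := ⟨x.toNat, by omega⟩
      have h4 := strip_left h1 h2 h3 k hT
      by_contra hne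
      exact ih k (by omega) (by omega) h4
    have v1 : ∀ x y, t1 x y ∈ T → x = n - 1 := by
      intro x y hT
      obtain ⟨U, u1, u2, u3, u4⟩ := strip_half_turn h1 h2 h3
      have hU := u4 x y hT
      have e1 := hsub _ hT (x, y) (by simp [t1])
      have e2 := hsub _ hT (x, y + 2) (by simp [t1])
      rw [mem_rect] at e1 e2
      simp only at e1 e2
      push_cast at e1 e2
      have hy : y = 0 := by omega
      subst hy
      obtain ⟨k, hk⟩ : ∃ k : ℕ, (n : ℤ) - 1 - x = k := ⟨((n : ℤ) - 1 - x).toNat, by omega⟩
      rw [hk, sub_zero] at hU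
      have h4 := strip_left u1 u2 u3 k hU
      by_contra hne
      exact ih k (by omega) (by omega) h4
    have v0 : ∀ x y, t0 x y ∈ T → 0 ≤ x ∧ x + 2 < n ∧ 0 ≤ y ∧ y ≤ 1 := by
      intro x y hT
      have e1 := hsub _ hT (x, y) (by simp [t0])
      have e2 := hsub _ hT (x + 2, y + 1) (by simp [t0])
      rw [mem_rect] at e1 e2
      simp only at e1 e2
      push_cast at e1 e2
      omega
    have v2 : ∀ x y, t2 x y ∈ T → 2 ≤ x ∧ x < n ∧ 1 ≤ y ∧ y ≤ 2 := by
      intro x y hT
      have e1 := hsub _ hT (x, y) (by simp [t2])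
      have e2 := hsub _ hT (x - 2, y - 1) (by simp [t2])
      rw [mem_rect] at e1 e2
      simp only at e1 e2
      push_cast at e1 e2
      omega
    -- the tiles covering a cell far from the right end
    have cover : ∀ a b : ℤ, 0 ≤ a → a ≤ 5 → 0 ≤ b → b ≤ 2 →
        t0 a b ∈ T ∨ t0 (a - 1) b ∈ T ∨ t0 (a - 2) b ∈ T ∨ t0 (a - 2) (b - 1) ∈ T ∨
        t2 a b ∈ T ∨ t2 (a + 1) b ∈ T ∨ t2 (a + 2) b ∈ T ∨ t2 (a + 2) (b + 1) ∈ T ∨
        (t3 0 2 ∈ T ∧ (a = 0 ∨ (a = 1 ∧ b = 0))) := by
      intro a b ha ha' hb hb'
      have hmem : ((a, b) : Cell) ∈ T.biUnion id := by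
        rw [h3, mem_rect]
        simp only
        omega
      obtain ⟨t, ht, hc⟩ := Finset.mem_biUnion.1 hmem
      obtain ⟨x, y, h | h | h | h⟩ := copy_cases (h1 t ht)
      · subst h
        simp only [id, t0, Finset.mem_insert, Finset.mem_singleton, Prod.mk.injEq] at hc
        rcases hc with ⟨h, h'⟩ | ⟨h, h'⟩ | ⟨h, h'⟩ | ⟨h, h'⟩ <;> subst h <;> subst h'
        · exact Or.inl ht
        · right; left; simpa using ht
        · right; right; left; simpa using ht
        · right; right; right; left; simpa using ht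
      · subst h
        have h4 := v1 x y ht
        simp only [id, t1, Finset.mem_insert, Finset.mem_singleton, Prod.mk.injEq] at hc
        omega
      · subst h
        simp only [id, t2, Finset.mem_insert, Finset.mem_singleton, Prod.mk.injEq] at hc
        rcases hc with ⟨h, h'⟩ | ⟨h, h'⟩ | ⟨h, h'⟩ | ⟨h, h'⟩ <;> subst h <;> subst h'
        · right; right; right; right; left; exact ht
        · right; right; right; right; right; left; simpa using ht
        · right; right; right; right; right; right; left; simpa using ht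
        · right; right; right; right; right; right; right; left; simpa using ht
      · subst h
        obtain ⟨h4, h5⟩ := v3 x y ht
        subst h4 h5
        simp only [id, t3, Finset.mem_insert, Finset.mem_singleton, Prod.mk.injEq] at hc
        right; right; right; right; right; right; right; right
        exact ⟨ht, by omega⟩
    have kill : ∀ {s t : Finset Cell}, s ∈ T → t ∈ T → ∀ c d : Cell, c ∈ s → c ∈ t → d ∈ s →
        d ∉ t → False := by
      intro s t hs ht c d hcs hct hds hdt
      exact hdt (huniq s hs t ht c hcs hct ▸ hds)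
    -- the first column is covered by a vertical tile
    have c02 : t3 0 2 ∈ T := by
      rcases cover 0 2 (by norm_num) (by norm_num) (by norm_num) (by norm_num) with
        h | h | h | h | h | h | h | h | h
      · have := v0 _ _ h; omega
      · have := v0 _ _ h; omega
      · have := v0 _ _ h; omega
      · have := v0 _ _ h; omega
      · have := v2 _ _ h; omega
      · have := v2 _ _ h; omega
      · -- t2 2 2
        exfalso
        norm_num at h
        have c00 : t0 0 0 ∈ T := by
          rcases cover 0 0 (by norm_num) (by norm_num) (by norm_num) (by norm_num) with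
            k | k | k | k | k | k | k | k | k
          · exact k
          · have := v0 _ _ k; omega
          · have := v0 _ _ k; omega
          · have := v0 _ _ k; omega
          · have := v2 _ _ k; omega
          · have := v2 _ _ k; omega
          · have := v2 _ _ k; omega
          · norm_num at k
            exact (kill k h (0, 1) (1, 1) (by decide) (by decide) (by decide) (by decide)).elim
          · exact (kill k.1 h (0, 2) (0, 0) (by decide) (by decide) (by decide) (by decide)).elim
        rcases cover 1 1 (by norm_num) (by norm_num) (by norm_num) (by norm_num) with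
            k | k | k | k | k | k | k | k | k
        · exact kill k c00 (2, 1) (1, 1) (by decide) (by decide) (by decide) (by decide)
        · norm_num at k
          exact kill k h (0, 1) (1, 1) (by decide) (by decide) (by decide) (by decide)
        · have := v0 _ _ k; omega
        · have := v0 _ _ k; omega
        · have := v2 _ _ k; omega
        · norm_num at k
          exact kill k c00 (2, 1) (1, 1) (by decide) (by decide) (by decide) (by decide)
        · norm_num at k
          exact kill k c00 (2, 1) (1, 1) (by decide) (by decide) (by decide) (by decide)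
        · norm_num at k
          exact kill k h (1, 2) (1, 1) (by decide) (by decide) (by decide) (by decide)
        · omega
      · have := v2 _ _ h; omega
      · exact h.1
    have h32 : t2 3 2 ∈ T := by
      rcases cover 1 2 (by norm_num) (by norm_num) (by norm_num) (by norm_num) with
        k | k | k | k | k | k | k | k | k
      · have := v0 _ _ k; omega
      · have := v0 _ _ k; omega
      · have := v0 _ _ k; omega
      · have := v0 _ _ k; omega
      · have := v2 _ _ k; omega
      · norm_num at k
        exact (kill k c02 (0, 2) (1, 2) (by decide) (by decide) (by decide) (by decide)).elim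
      · simpa using k
      · have := v2 _ _ k; omega
      · omega
    rcases cover 2 0 (by norm_num) (by norm_num) (by norm_num) (by norm_num) with
        h | h | h | h | h | h | h | h | h
    · -- t0 2 0
      rcases cover 2 1 (by norm_num) (by norm_num) (by norm_num) (by norm_num) with
        k | k | k | k | k | k | k | k | k
      · exact kill k h (4, 1) (2, 1) (by decide) (by decide) (by decide) (by decide)
      · norm_num at k
        exact kill k h32 (1, 1) (2, 1) (by decide) (by decide) (by decide) (by decide)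
      · norm_num at k
        exact kill k c02 (0, 1) (2, 1) (by decide) (by decide) (by decide) (by decide)
      · norm_num at k
        exact kill k c02 (0, 0) (2, 1) (by decide) (by decide) (by decide) (by decide)
      · exact kill k h32 (1, 1) (2, 1) (by decide) (by decide) (by decide) (by decide)
      · norm_num at k
        exact kill k h32 (1, 1) (2, 1) (by decide) (by decide) (by decide) (by decide)
      · norm_num at k
        exact kill k h (4, 1) (2, 1) (by decide) (by decide) (by decide) (by decide)
      · norm_num at k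
        exact kill k h32 (3, 2) (2, 1) (by decide) (by decide) (by decide) (by decide)
      · omega
    · norm_num at h
      exact kill h c02 (1, 0) (2, 0) (by decide) (by decide) (by decide) (by decide)
    · norm_num at h
      exact kill h c02 (0, 0) (2, 0) (by decide) (by decide) (by decide) (by decide)
    · have := v0 _ _ h; omega
    · have := v2 _ _ h; omega
    · have := v2 _ _ h; omega
    · have := v2 _ _ h; omega
    · -- t2 4 1
      norm_num at h
      rcases cover 4 2 (by norm_num) (by norm_num) (by norm_num) (by norm_num) with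
        k | k | k | k | k | k | k | k | k
      · have := v0 _ _ k; omega
      · have := v0 _ _ k; omega
      · have := v0 _ _ k; omega
      · norm_num at k
        exact kill k h (2, 1) (4, 2) (by decide) (by decide) (by decide) (by decide)
      · exact kill k h32 (3, 2) (4, 2) (by decide) (by decide) (by decide) (by decide)
      · norm_num at k
        exact kill k h32 (3, 2) (4, 2) (by decide) (by decide) (by decide) (by decide)
      · norm_num at k
        exact kill k h (4, 1) (4, 2) (by decide) (by decide) (by decide) (by decide)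
      · have := v2 _ _ k; omega
      · omega
    · omega

/-! ### Constructions -/

theorem tiles_of_list {R : Finset Cell} (T : Finset (Finset Cell))
    (h1 : ∀ t ∈ T, SameOrientation baseL t)
    (h2 : ∀ s ∈ T, ∀ t ∈ T, s ≠ t → Disjoint s t) (h3 : T.biUnion id = R) :
    Tiles (SameOrientation baseL) R :=
  ⟨T, h1, fun s hs t ht hst => h2 s hs t ht hst, h3⟩

theorem rect_translate (m n a b : ℕ) :
    (rect m n).image (fun p => p + ((a : ℤ), (b : ℤ))) =
      Finset.Ico (a : ℤ) (a + m) ×ˢ Finset.Ico (b : ℤ) (b + n) := by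
  ext ⟨x, y⟩
  simp only [Finset.mem_image, mem_rect, Prod.exists, Prod.mk_add_mk, Prod.mk.injEq,
    Finset.mem_product, Finset.mem_Ico]
  constructor
  · rintro ⟨c, d, h, h'⟩
    omega
  · intro h
    exact ⟨x - a, y - b, by omega, by omega, by omega⟩

theorem tiles_stack {m n k : ℕ} (h1 : Tiles (SameOrientation baseL) (rect m n))
    (h2 : Tiles (SameOrientation baseL) (rect k n)) :
    Tiles (SameOrientation baseL) (rect (m + k) n) := by
  have h3 := h2.map (C' := SameOrientation baseL) (fun p => p + ((m : ℤ), ((0 : ℕ) : ℤ)))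
    (fun p q h => by simpa using h)
    (fun t ht => ht.trans (same_trans t _))
  rw [rect_translate] at h3
  have h4 : rect (m + k) n = rect m n ∪
      Finset.Ico (m : ℤ) (m + k) ×ˢ Finset.Ico (((0 : ℕ) : ℤ)) (((0 : ℕ) : ℤ) + n) := by
    ext ⟨x, y⟩
    simp only [mem_rect, Finset.mem_union, Finset.mem_product, Finset.mem_Ico]
    push_cast
    omega
  rw [h4]
  refine Tiles.union ?_ h1 h3
  rw [Finset.disjoint_left]
  rintro ⟨x, y⟩ h5 h6
  simp only [mem_rect, Finset.mem_product, Finset.mem_Ico] at h5 h6
  omega

theorem tiles_zero (n : ℕ) : Tiles (SameOrientation baseL) (rect 0 n) :=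
  ⟨∅, by simp, by simp, by simp [rect]⟩

theorem tiles_mul {m n : ℕ} (k : ℕ) (h1 : Tiles (SameOrientation baseL) (rect m n)) :
    Tiles (SameOrientation baseL) (rect (k * m) n) := by
  induction k with
  | zero => rw [zero_mul]; exact tiles_zero n
  | succ k ih => rw [Nat.succ_mul]; exact tiles_stack ih h1

theorem tiles_mul2 {m n : ℕ} (k : ℕ) (h1 : Tiles (SameOrientation baseL) (rect m n)) :
    Tiles (SameOrientation baseL) (rect m (k * n)) :=
  tiles_rot (tiles_mul k (tiles_rot h1))

theorem tiles_stack2 {m n k : ℕ} (h1 : Tiles (SameOrientation baseL) (rect n m))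
    (h2 : Tiles (SameOrientation baseL) (rect n k)) :
    Tiles (SameOrientation baseL) (rect n (m + k)) :=
  tiles_rot (tiles_stack (tiles_rot h1) (tiles_rot h2))

theorem tiles_4_2 : Tiles (SameOrientation baseL) (rect 4 2) := by
  refine tiles_of_list {t0 1 0, t2 2 1} ?_ ?_ ?_
  · intro t ht
    simp only [Finset.mem_insert, Finset.mem_singleton] at ht
    rcases ht with rfl | rfl
    · exact copy_t0 _ _
    · exact copy_t2 _ _
  · decide
  · ext ⟨a, b⟩
    rw [mem_rect]
    push_cast
    constructor
    · intro h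
      have h' : ((a, b) : Cell) ∈ ({(1, 0), (2, 0), (3, 0), (3, 1), (0, 0), (0, 1), (1, 1), (2, 1)} :
          Finset Cell) := by
        have e : (({t0 1 0, t2 2 1} : Finset (Finset Cell)).biUnion id) =
          {(1, 0), (2, 0), (3, 0), (3, 1), (0, 0), (0, 1), (1, 1), (2, 1)} := by decide
        rwa [e] at h
      simp only [Finset.mem_insert, Finset.mem_singleton, Prod.mk.injEq] at h'
      omega
    · rintro ⟨h1, h2, h3, h4⟩
      interval_cases a <;> interval_cases b <;> decide

def T58 : Finset (Finset Cell) :=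
  {t2 2 7, t1 4 5, t1 2 4, t3 3 6, t1 1 3, t3 0 4, t2 4 3, t1 4 0, t2 2 1, t0 1 0}

theorem tiles_5_8 : Tiles (SameOrientation baseL) (rect 5 8) := by
  refine tiles_of_list T58 ?_ ?_ ?_
  · intro t ht
    simp only [T58, Finset.mem_insert, Finset.mem_singleton] at ht
    rcases ht with rfl | rfl | rfl | rfl | rfl | rfl | rfl | rfl | rfl | rfl
    · exact copy_t2 _ _
    · exact copy_t1 _ _
    · exact copy_t1 _ _
    · exact copy_t3 _ _
    · exact copy_t1 _ _
    · exact copy_t3 _ _
    · exact copy_t2 _ _
    · exact copy_t1 _ _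
    · exact copy_t2 _ _
    · exact copy_t0 _ _
  · decide
  · have hall : ∀ t ∈ T58, ∀ c ∈ t, 0 ≤ c.1 ∧ c.1 < 5 ∧ 0 ≤ c.2 ∧ c.2 < 8 := by decide
    ext ⟨a, b⟩
    rw [mem_rect]
    push_cast
    constructor
    · intro h
      obtain ⟨t, ht, hc⟩ := Finset.mem_biUnion.1 h
      exact hall t ht _ hc
    · rintro ⟨h1, h2, h3, h4⟩
      interval_cases a <;> interval_cases b <;> decide

theorem tiles_8_5 : Tiles (SameOrientation baseL) (rect 8 5) := tiles_rot tiles_5_8

/-- sufficiency -/
theorem tiles_of {m n : ℕ} (hm : 2 ≤ m) (hn : 2 ≤ n) (hm3 : m ≠ 3) (hn3 : n ≠ 3)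
    (h8 : 8 ∣ m * n) : Tiles (SameOrientation baseL) (rect m n) := by
  have key : ∀ a b : ℕ, 4 ∣ a → 2 ∣ b → Tiles (SameOrientation baseL) (rect a b) := by
    rintro a b ⟨k, rfl⟩ ⟨l, rfl⟩
    have := tiles_mul2 l (tiles_mul k tiles_4_2)
    rwa [mul_comm k 4, mul_comm l 2] at this
  have key2 : ∀ a b : ℕ, 8 ∣ a → 5 ≤ b → ¬ 2 ∣ b →
      Tiles (SameOrientation baseL) (rect a b) := by
    rintro a b ⟨k, rfl⟩ hb hb2
    obtain ⟨l, rfl⟩ : ∃ l, b = 5 + 2 * l := ⟨(b - 5) / 2, by omega⟩
    have h1 := tiles_mul k tiles_8_5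
    rw [mul_comm k 8] at h1
    exact tiles_stack2 h1 (key _ _ ⟨2 * k, by ring⟩ ⟨l, rfl⟩)
  by_cases h2m : 2 ∣ m
  · by_cases h2n : 2 ∣ n
    · by_cases h4m : 4 ∣ m
      · exact key m n h4m h2n
      · have h4n : 4 ∣ n := by
          obtain ⟨a, rfl⟩ := h2m
          obtain ⟨b, rfl⟩ := h2n
          have ha : ¬ 2 ∣ a := fun ⟨c, hc⟩ => h4m ⟨c, by omega⟩
          have hab : 2 ∣ a * b := by
            obtain ⟨c, hc⟩ := h8
            exact ⟨c, by nlinarith⟩
          rcases (Nat.prime_two.dvd_mul).1 hab with h | h
          · exact (ha h).elim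
          · obtain ⟨c, hc⟩ := h
            exact ⟨c, by omega⟩
        exact tiles_rot (key n m h4n h2m)
    · have h : Nat.Coprime 8 n := by
        have : Nat.Coprime (2 ^ 3) n :=
          Nat.Coprime.pow_left 3 ((Nat.Prime.coprime_iff_not_dvd Nat.prime_two).2 h2n)
        simpa using this
      exact key2 m n (h.dvd_of_dvd_mul_right h8) (by omega) h2n
  · have h : Nat.Coprime 8 m := by
      have : Nat.Coprime (2 ^ 3) m :=
        Nat.Coprime.pow_left 3 ((Nat.Prime.coprime_iff_not_dvd Nat.prime_two).2 h2m)
      simpa using this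
    exact tiles_rot (key2 n m (h.dvd_of_dvd_mul_left h8) (by omega) h2m)

theorem tiles_iff {m n : ℕ} (hm : 1 ≤ m) (hn : 1 ≤ n) :
    Tiles (SameOrientation baseL) (rect m n) ↔
      2 ≤ m ∧ 2 ≤ n ∧ m ≠ 3 ∧ n ≠ 3 ∧ 8 ∣ m * n := by
  constructor
  · intro h
    have h1 : ∀ {a b : ℕ}, 1 ≤ a → 1 ≤ b → Tiles (SameOrientation baseL) (rect a b) →
        2 ≤ b := by
      intro a b ha hb h
      by_contra hlt
      have hb1 : b = 1 := by omega
      subst hb1
      obtain ⟨T, h1, h2, h3⟩ := h
      have hmem : ((0, 0) : Cell) ∈ T.biUnion id := by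
        rw [h3, mem_rect]
        simp only
        omega
      obtain ⟨t, ht, hc⟩ := Finset.mem_biUnion.1 hmem
      have hsub : ∀ c ∈ t, c ∈ rect a 1 := fun c hc => by
        rw [← h3]; exact Finset.mem_biUnion.2 ⟨t, ht, hc⟩
      obtain ⟨x, y, h | h | h | h⟩ := copy_cases (h1 t ht)
      · have e1 := hsub (x, y) (by rw [h]; simp [t0])
        have e2 := hsub (x + 2, y + 1) (by rw [h]; simp [t0])
        rw [mem_rect] at e1 e2
        simp only at e1 e2
        omega
      · have e1 := hsub (x, y) (by rw [h]; simp [t1])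
        have e2 := hsub (x, y + 1) (by rw [h]; simp [t1])
        rw [mem_rect] at e1 e2
        simp only at e1 e2
        omega
      · have e1 := hsub (x, y) (by rw [h]; simp [t2])
        have e2 := hsub (x - 2, y - 1) (by rw [h]; simp [t2])
        rw [mem_rect] at e1 e2
        simp only at e1 e2
        omega
      · have e1 := hsub (x, y) (by rw [h]; simp [t3])
        have e2 := hsub (x, y - 1) (by rw [h]; simp [t3])
        rw [mem_rect] at e1 e2
        simp only at e1 e2
        omega
    refine ⟨h1 hn hm (tiles_rot h), h1 hm hn h, ?_, ?_, eight_dvd h⟩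
    · rintro rfl
      exact strip_impossible n hn (tiles_rot h)
    · rintro rfl
      exact strip_impossible m hm h
  · rintro ⟨h1, h2, h3, h4, h5⟩
    exact tiles_of h1 h2 h3 h4 h5

theorem one_iff_tiles {m n : ℕ} (hm : 1 ≤ m) (hn : 1 ≤ n) :
    OneOrientationTileable m n ↔ Tiles (SameOrientation baseL) (rect m n) := by
  constructor
  · rintro ⟨T, ⟨h1, h2, h3⟩, h4⟩
    have hmem : ((0, 0) : Cell) ∈ T.biUnion id := by
      rw [h3, mem_rect]
      simp only
      omega
    obtain ⟨s, hs, hc⟩ := Finset.mem_biUnion.1 hmem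
    rcases h1 s hs with h | h
    · exact ⟨T, fun t ht => h.trans (h4 s hs t ht), h2, h3⟩
    · exact tiles_mirror ⟨T, fun t ht => h.trans (h4 s hs t ht), h2, h3⟩
  · rintro ⟨T, h1, h2, h3⟩
    exact ⟨T, ⟨fun t ht => Or.inl (h1 t ht), h2, h3⟩,
      fun s hs t ht => (h1 s hs).symm.trans (h1 t ht)⟩

/-- The complete answer: an `m × n` rectangle has a tiling by L-tetrominoes all of the same
orientation exactly when `m, n ≥ 2`, neither side is `3`, and `8 ∣ m n`. In particular the
proposed criterion (one side divisible by 4 and the other even) fails, for instance for the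
`5 × 8` rectangle. -/
theorem result :
    (∀ m n : ℕ, 1 ≤ m → 1 ≤ n →
      (OneOrientationTileable m n ↔ 2 ≤ m ∧ 2 ≤ n ∧ m ≠ 3 ∧ n ≠ 3 ∧ 8 ∣ m * n)) ∧
    ¬ (∀ m n : ℕ, 1 ≤ m → 1 ≤ n →
      (OneOrientationTileable m n ↔ (4 ∣ m ∧ 2 ∣ n) ∨ (4 ∣ n ∧ 2 ∣ m))) := by
  have h : ∀ m n : ℕ, 1 ≤ m → 1 ≤ n →
      (OneOrientationTileable m n ↔ 2 ≤ m ∧ 2 ≤ n ∧ m ≠ 3 ∧ n ≠ 3 ∧ 8 ∣ m * n) :=
    fun m n hm hn => (one_iff_tiles hm hn).trans (tiles_iff hm hn)
  refine ⟨h, fun hc => ?_⟩
  have h1 := (h 5 8 (by norm_num) (by norm_num)).2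
    ⟨by norm_num, by norm_num, by norm_num, by norm_num, ⟨5, by norm_num⟩⟩
  have h2 := (hc 5 8 (by norm_num) (by norm_num)).1 h1
  omega

end Pool.Agent.Results.MP_7a8221_co.Classification
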